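import Pool.Agent.Y803.FD.Model

open scoped WithZero Matrix Polynomial IntermediateField TensorProduct
open WithZero

set_option linter.unusedSectionVars false

/-! Every function field `ℂ(x, y)`, `y² = f(x)`, is isomorphic to the model. -/

namespace Pool.Agent.Y803.FD

open Pool.Agent.Helper395.CS hiding map_mul map_inv

variable {K : Type} [Field K] [Algebra ℂ K] {f : ℂ[X]} [hF : Fact (Irreducible (Pf f))]

/-- the embedding of `ℂ(x)` -/
noncomputable def phi0 {x : K} (hx : Transcendental ℂ x) : RatFunc ℂ →ₐ[ℂ] K :=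
  IsFractionRing.liftAlgHom (R := ℂ) (A := ℂ[X]) (K := RatFunc ℂ) (L := K) (g := Polynomial.aeval x)
    (transcendental_iff_injective.1 hx)

theorem phi0_algebraMap {x : K} (hx : Transcendental ℂ x) (p : ℂ[X]) :
    phi0 hx (algebraMap ℂ[X] (RatFunc ℂ) p) = Polynomial.aeval x p :=
  IsFractionRing.lift_algebraMap (transcendental_iff_injective.1 hx) p

theorem phi0_X {x : K} (hx : Transcendental ℂ x) : phi0 hx RatFunc.X = x := by
  rw [← RatFunc.algebraMap_X, phi0_algebraMap, Polynomial.aeval_X]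

theorem phi_cond {x y : K} (hx : Transcendental ℂ x) (hy : y ^ 2 = Polynomial.aeval x f) :
    Polynomial.eval₂ (phi0 hx : RatFunc ℂ →+* K) y (Pf f) = 0 := by
  rw [Pf, Polynomial.eval₂_sub, Polynomial.eval₂_X_pow, Polynomial.eval₂_C, hy, Ff, sub_eq_zero]
  exact (phi0_algebraMap hx f).symm

/-- the map from the model -/
noncomputable def phi {x y : K} (hx : Transcendental ℂ x) (hy : y ^ 2 = Polynomial.aeval x f) :
    Kf f →ₐ[ℂ] K where
  toRingHom := AdjoinRoot.lift (phi0 hx : RatFunc ℂ →+* K) y (phi_cond hx hy)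
  commutes' c := by
    have h1 : algebraMap ℂ (Kf f) c = AdjoinRoot.of (Pf f) (algebraMap ℂ (RatFunc ℂ) c) := rfl
    change AdjoinRoot.lift (phi0 hx : RatFunc ℂ →+* K) y (phi_cond hx hy) _ = _
    rw [h1, AdjoinRoot.lift_of]
    exact (phi0 hx).commutes c

theorem phi_x {x y : K} (hx : Transcendental ℂ x) (hy : y ^ 2 = Polynomial.aeval x f) :
    phi hx hy (xf f) = x := by
  change AdjoinRoot.lift (phi0 hx : RatFunc ℂ →+* K) y (phi_cond hx hy)
    (AdjoinRoot.of (Pf f) RatFunc.X) = _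
  rw [AdjoinRoot.lift_of]
  exact phi0_X hx

theorem phi_y {x y : K} (hx : Transcendental ℂ x) (hy : y ^ 2 = Polynomial.aeval x f) :
    phi hx hy (yf f) = y := by
  change AdjoinRoot.lift (phi0 hx : RatFunc ℂ →+* K) y (phi_cond hx hy) (AdjoinRoot.root (Pf f)) = _
  rw [AdjoinRoot.lift_root]

theorem phi_surjective {x y : K} (hx : Transcendental ℂ x) (hy : y ^ 2 = Polynomial.aeval x f)
    (h : IntermediateField.adjoin ℂ {x, y} = ⊤) : Function.Surjective (phi hx hy) := by
  have h1 : IntermediateField.adjoin ℂ {x, y} ≤ (phi hx hy).fieldRange := by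
    rw [IntermediateField.adjoin_le_iff]
    rintro z (rfl | rfl)
    · exact ⟨xf f, phi_x hx hy⟩
    · exact ⟨yf f, phi_y hx hy⟩
  intro z
  have h2 : z ∈ IntermediateField.adjoin ℂ {x, y} := by rw [h]; trivial
  exact h1 h2

/-- the isomorphism with the model -/
noncomputable def eqv {x y : K} (hx : Transcendental ℂ x) (hy : y ^ 2 = Polynomial.aeval x f)
    (h : IntermediateField.adjoin ℂ {x, y} = ⊤) : Kf f ≃ₐ[ℂ] K :=
  AlgEquiv.ofBijective (phi hx hy) ⟨(phi hx hy).toRingHom.injective, phi_surjective hx hy h⟩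

theorem hyp_all (hs : f.Separable) {x y : K} (hx : Transcendental ℂ x)
    (hy : y ^ 2 = Polynomial.aeval x f) (h : IntermediateField.adjoin ℂ {x, y} = ⊤) :
    Hyp x y f (((eqv hx hy h).symm.trans (ιf f)).trans (eqv hx hy h)) where
  curve := by
    classical
    refine ⟨⟨{x, y}, by rw [Finset.coe_pair, h]⟩, ?_⟩
    have h1 := (eqv hx hy h).trdeg_eq
    rw [← h1]
    exact (Kf_isCurve f).trdeg
  trans := hx
  eq := hy
  sep := hs
  span := by
    intro z
    obtain ⟨w, rfl⟩ := (eqv hx hy h).surjective z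
    obtain ⟨a, ha, b, hb, rfl⟩ := spanf f w
    have key : ∀ c ∈ ℂ⟮xf f⟯, eqv hx hy h c ∈ ℂ⟮x⟯ := by
      intro c hc
      have h1 : (ℂ⟮xf f⟯).map (phi hx hy) = ℂ⟮x⟯ := by
        rw [IntermediateField.adjoin_map, Set.image_singleton, phi_x]
      rw [← h1]
      exact ⟨c, hc, rfl⟩
    refine ⟨_, key a ha, _, key b hb, ?_⟩
    have h2 : eqv hx hy h (yf f) = y := phi_y hx hy
    rw [map_add, _root_.map_mul, h2]
  inv_x := by
    have h1 : eqv hx hy h (xf f) = x := phi_x hx hy
    have h2 : (eqv hx hy h).symm x = xf f := by rw [AlgEquiv.symm_apply_eq, h1]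
    change eqv hx hy h (ιf f ((eqv hx hy h).symm x)) = x
    rw [h2, (hypf f hs).inv_x, h1]
  inv_y := by
    have h1 : eqv hx hy h (yf f) = y := phi_y hx hy
    have h2 : (eqv hx hy h).symm y = yf f := by rw [AlgEquiv.symm_apply_eq, h1]
    change eqv hx hy h (ιf f ((eqv hx hy h).symm y)) = -y
    rw [h2, (hypf f hs).inv_y, map_neg, h1]

end Pool.Agent.Y803.FD
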