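import Pool.Agent.Helper395.CS.Moduli

open scoped WithZero Matrix Polynomial IntermediateField TensorProduct
open WithZero

set_option linter.unusedSectionVars false

/-! The curves `y² = f(x)` of genus `b + 7`. -/

namespace Pool.Agent.Y803.FD

open Pool.Agent.Helper395.CS hiding map_mul map_inv
open Pool.Agent.Helper395.CS.Hyp (omega0)

variable {K : Type} [Field K] [Algebra ℂ K]

/-- `f` has degree `2 b + 16` and `f'` is the reversed polynomial, both are separable -/
structure Rev (f f' : ℂ[X]) (b : ℕ) : Prop where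
  deg : f.natDegree = 2 * b + 16
  sep' : f'.Separable
  rev : ∀ (K : Type) [Field K] [Algebra ℂ K] (x : K), x ≠ 0 →
    Polynomial.aeval x⁻¹ f' = Polynomial.aeval x f / x ^ (2 * b + 16)

variable {x y : K} {f f' : ℂ[X]} {b : ℕ} {ι : K ≃ₐ[ℂ] K} (H : Hyp x y f ι) (R : Rev f f' b)

include H R

/-- the coordinates at infinity -/
theorem swap : Hyp x⁻¹ (y / x ^ (b + 8)) f' ι where
  curve := H.curve
  trans := transcendental_inv H.trans
  eq := by
    have hx := H.x_ne
    rw [div_pow, H.eq, R.rev K x hx, ← pow_mul]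
    congr 2
    ring
  sep := R.sep'
  span := by
    intro z
    obtain ⟨a, ha, b', hb, rfl⟩ := H.span z
    rw [adjoin_inv]
    have hx : x ∈ ℂ⟮x⟯ := IntermediateField.mem_adjoin_simple_self ℂ x
    refine ⟨a, ha, b' * x ^ (b + 8), mul_mem hb (pow_mem hx _), ?_⟩
    have := H.x_ne
    field_simp
  inv_x := by rw [map_inv₀, H.inv_x]
  inv_y := by rw [map_div₀, map_pow, H.inv_x, H.inv_y, neg_div]

theorem om_swap : omega0 x⁻¹ (y / x ^ (b + 8)) = (-x ^ (b + 6)) • omega0 x y := by
  have hx := H.x_ne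
  have hy := H.y_ne
  rw [omega0, Derivation.leibniz_inv, H.D_x, smul_smul, smul_smul]
  congr 1
  field_simp
  ring

theorem val_y_inf {v : Point K} (hv : 1 < v.val x) : v.val y = v.val x ^ (b + 8) := by
  have h1 : v.val (y ^ 2) = v.val x ^ (2 * b + 16) := by
    rw [H.eq, val_aeval_inf hv f H.f_ne, R.deg]
  rw [map_pow] at h1
  have h2 : v.val x ^ (2 * b + 16) = (v.val x ^ (b + 8)) ^ 2 := by
    rw [← pow_mul]; congr 1; ring
  rw [h2] at h1
  exact (pow_left_inj₀ zero_le zero_le two_ne_zero).1 h1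

theorem smul_omega0_mem_iff' (v : Point K) (φ : K) :
    φ • omega0 x y ∈ v.differentials ↔ v.val φ ≤ v.val (dgen x v (b + 6)) := by
  by_cases hv : v.val x ≤ 1
  · rw [dgen_fin hv, map_one]
    exact H.smul_omega0_mem_iff hv φ
  · have hv' := not_le.1 hv
    have hx := H.x_ne
    rw [dgen_inf hv', map_pow]
    have hinv : v.val x⁻¹ ≤ 1 := by
      rw [map_inv₀]
      exact inv_le_one_of_one_le₀ hv'.le
    have h1 := (swap H R).smul_omega0_mem_iff (v := v) hinv (-φ * (x ^ (b + 6))⁻¹)
    rw [om_swap H R, smul_smul] at h1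
    have h2 : -φ * (x ^ (b + 6))⁻¹ * -x ^ (b + 6) = φ := by
      field_simp
    rw [h2] at h1
    rw [h1, map_mul, map_inv₀, Valuation.map_neg, map_pow, ← div_eq_mul_inv,
      div_le_one₀ (pow_pos (zero_lt_one.trans hv') _)]

/-- rational functions with bounded poles at infinity are polynomials -/
theorem poly_of_le' {z : K} {m : ℕ} (hb : m ≤ b + 7)
    (hz : ∀ v : Point K, v.val z ≤ v.val (dgen x v m)) :
    ∃ p : ℂ[X], p.natDegree ≤ m ∧ z = Polynomial.aeval x p := by
  obtain ⟨p, q, rfl⟩ := H.mem_ring (z := z) (fun v hv => by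
    have := hz v
    rwa [dgen_fin hv, map_one] at this)
  obtain ⟨v, hv⟩ := exists_inf H
  have h1 := H.parts_le rfl (mem_adj p) (mem_adj q) v (C := v.val x ^ m) (by
    have := hz v
    rwa [dgen_inf hv, map_pow] at this) (by
    have h2 : 1 < (v.comap ι).val x := by rw [H.comap_x]; exact hv
    have := hz (v.comap ι)
    rwa [dgen_inf h2, map_pow, H.comap_x] at this)
  have hq : q = 0 := by
    by_contra hq
    have h3 := h1.2
    rw [map_mul, val_aeval_inf hv q hq, val_y_inf H R hv, ← pow_add, pow_le_pow_iff_right₀ hv] at h3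
    omega
  subst hq
  rw [map_zero, zero_mul, add_zero] at *
  rcases eq_or_ne p 0 with rfl | hp
  · exact ⟨0, by simp, rfl⟩
  refine ⟨p, ?_, rfl⟩
  have h4 := h1.1
  rwa [val_aeval_inf hv p hp, pow_le_pow_iff_right₀ hv] at h4

theorem diffMap_inj (m : ℕ) : Function.Injective (Hyp.diffMap x y m) := by
  intro a b hab
  apply pev_injective H.trans
  have h1 : pev x m a • omega0 x y = pev x m b • omega0 x y := hab
  have h2 : (pev x m a - pev x m b) • omega0 x y = 0 := by rw [sub_smul, h1, sub_self]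
  rcases smul_eq_zero.1 h2 with h3 | h3
  · exact sub_eq_zero.1 h3
  · exact absurd h3 H.omega0_ne

theorem finrank_of_iff (S : Submodule ℂ (Ω[K⁄ℂ])) {m : ℕ} (hb : m ≤ b + 7)
    (hS : ∀ φ : K, φ • omega0 x y ∈ S ↔ ∀ v : Point K, v.val φ ≤ v.val (dgen x v m)) :
    Module.finrank ℂ S = m + 1 := by
  have h1 : S = LinearMap.range (Hyp.diffMap x y (m + 1)) := by
    ext ω
    obtain ⟨φ, rfl⟩ := H.exists_smul ω
    rw [hS]
    constructor
    · intro h
      obtain ⟨p, hp, rfl⟩ := poly_of_le' H R hb h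
      refine ⟨fun j => p.coeff j, ?_⟩
      change pev x (m + 1) _ • omega0 x y = _
      rw [pev_coeff x p hp]
    · rintro ⟨c, hc⟩ v
      have h2 : pev x (m + 1) c • omega0 x y = φ • omega0 x y := hc
      have h3 : (pev x (m + 1) c - φ) • omega0 x y = 0 := by rw [sub_smul, h2, sub_self]
      rcases smul_eq_zero.1 h3 with h4 | h4
      · rw [← sub_eq_zero.1 h4]
        exact pev_le v m c
      · exact absurd h4 H.omega0_ne
  rw [h1, LinearMap.finrank_range_of_inj (diffMap_inj H R _)]
  simp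

theorem genus_eq : genus K = b + 7 := by
  apply finrank_of_iff H R _ (m := b + 6) (by omega)
  intro φ
  exact forall_congr' fun v => smul_omega0_mem_iff' H R v φ

theorem dgen_mul (v : Point K) (a c : ℕ) : dgen x v a * dgen x v c = dgen x v (a + c) := by
  by_cases hv : v.val x ≤ 1
  · rw [dgen_fin hv, dgen_fin hv, dgen_fin hv, one_mul]
  · rw [dgen_inf (not_le.1 hv), dgen_inf (not_le.1 hv), dgen_inf (not_le.1 hv), pow_add]

theorem hOne_eq : (lineH H.curve H.x_ne 6).hOne = b + 1 := by
  apply finrank_of_iff H R _ (m := b) (by omega)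
  intro φ
  refine forall_congr' fun v => ?_
  have h6 := v.val_ne_zero (dgen_ne H.x_ne v 6)
  have key : ∀ z : K, v.val (z * φ) ≤ v.val (dgen x v (b + 6)) ↔
      v.val (z * φ) ≤ v.val (dgen x v b) * v.val (dgen x v 6) := by
    intro z
    rw [← map_mul, dgen_mul H R]
  constructor
  · intro h
    have h1 := h (dgen x v 6) (le_refl (v.val (dgen x v 6)))
    rw [smul_smul, smul_omega0_mem_iff' H R, key, map_mul, mul_comm] at h1
    exact le_of_mul_le_mul_right h1 (zero_lt_iff.2 h6)
  · intro h s hs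
    rw [smul_smul, smul_omega0_mem_iff' H R, key, map_mul, mul_comm]
    exact mul_le_mul' h hs

theorem degree_lineH (m : ℕ) : (lineH H.curve H.x_ne m).degree = 2 * m := by
  have h1 : ∀ v : Point K, -v.ord ((lineH H.curve H.x_ne m).frame v : K) =
      (m : ℤ) * max (-v.ord x) 0 := fun v => ord_dgen H.x_ne v m
  rw [LineBundle.degree, finsum_congr h1, ← mul_finsum]
  change (m : ℤ) * degP x = _
  rw [H.degP_x]
  ring

theorem bound_eq : expectedBound 3 8 (lineH H.curve H.x_ne 6) = 40 * b - 8 := by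
  rw [expectedBound, genus_eq H R, hOne_eq H R, degree_lineH H R, brillNoether]
  norm_num [Nat.choose]
  ring

theorem det_std : (stdBundle H.curve H.x_ne).det.Iso (lineH H.curve H.x_ne 6) := by
  refine ⟨1, fun v s => ?_⟩
  have h1 : ((stdBundle H.curve H.x_ne).det.frame v : K) = dgen x v 6 := by
    change (((1 : GL (Fin 3) K) * dframe H.x_ne v (fun _ => 2)).1).det = dgen x v 6
    rw [one_mul]
    change (Matrix.diagonal (fun _ : Fin 3 => dgen x v 2)).det = dgen x v 6
    rw [Matrix.det_diagonal, Fin.prod_univ_three, dgen_mul H R, dgen_mul H R]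
  rw [Units.val_one, one_mul]
  change v.val s ≤ v.val ((stdBundle H.curve H.x_ne).det.frame v : K) ↔ v.val s ≤ v.val (dgen x v 6)
  rw [h1]

end Pool.Agent.Y803.FD
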