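import Pool.Agent.Y803.FD.Genus

open scoped WithZero Matrix Polynomial IntermediateField TensorProduct
open WithZero

set_option linter.unusedSectionVars false

/-! The function field of `y² = f(x)`. -/

namespace Pool.Agent.Y803.FD

open Pool.Agent.Helper395.CS hiding map_mul map_inv

section model

variable (f : ℂ[X])

/-- `f` as a rational function -/
noncomputable def Ff : RatFunc ℂ := algebraMap ℂ[X] (RatFunc ℂ) f

/-- the polynomial `Y ^ 2 - f` -/
noncomputable def Pf : (RatFunc ℂ)[X] := Polynomial.X ^ 2 - Polynomial.C (Ff f)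

variable {f} in
theorem Ff_not_sq (hs : f.Separable) (hd : f.natDegree ≠ 0) (b : RatFunc ℂ) : b ^ 2 ≠ Ff f := by
  intro h
  have h1 : IsIntegral ℂ[X] (b ^ 2) := by
    rw [h]
    exact isIntegral_algebraMap
  obtain ⟨p, rfl⟩ := IsIntegrallyClosed.exists_algebraMap_eq_of_isIntegral_pow (R := ℂ[X])
    (K := RatFunc ℂ) (n := 2) (by norm_num) h1
  rw [← map_pow] at h
  have h2 : p ^ 2 = f := IsFractionRing.injective ℂ[X] (RatFunc ℂ) h
  have h3 : IsUnit p := hs.squarefree p (by rw [← h2, pow_two])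
  have h4 := Polynomial.natDegree_eq_zero_of_isUnit h3
  apply hd
  rw [← h2, Polynomial.natDegree_pow, h4]

variable {f} in
theorem Pf_irreducible (hs : f.Separable) (hd : f.natDegree ≠ 0) : Irreducible (Pf f) :=
  X_pow_sub_C_irreducible_of_prime Nat.prime_two fun b => Ff_not_sq hs hd b

/-- the function field of `y² = f(x)` -/
abbrev Kf : Type := AdjoinRoot (Pf f)

variable [hF : Fact (Irreducible (Pf f))]

/-- the coordinate function `x` -/
noncomputable def xf : Kf f := algebraMap (RatFunc ℂ) (Kf f) RatFunc.X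

/-- the coordinate function `y` -/
noncomputable def yf : Kf f := AdjoinRoot.root (Pf f)

theorem aeval_xf (p : ℂ[X]) : Polynomial.aeval (xf f) p =
    algebraMap (RatFunc ℂ) (Kf f) (algebraMap ℂ[X] (RatFunc ℂ) p) := by
  have h1 : xf f = algebraMap (RatFunc ℂ) (Kf f) (algebraMap ℂ[X] (RatFunc ℂ) Polynomial.X) := by
    rw [xf, RatFunc.algebraMap_X]
  rw [h1, Polynomial.aeval_algebraMap_apply, Polynomial.aeval_algebraMap_apply,
    Polynomial.aeval_X_left_apply]

theorem yf_sq : (yf f) ^ 2 = Polynomial.aeval (xf f) f := by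
  rw [aeval_xf]
  have h := AdjoinRoot.eval₂_root (Pf f)
  rw [Pf, Polynomial.eval₂_sub, Polynomial.eval₂_X_pow, Polynomial.eval₂_C, sub_eq_zero] at h
  exact h

theorem xf_transcendental : Transcendental ℂ (xf f) := by
  rw [transcendental_iff]
  intro p hp
  rw [aeval_xf] at hp
  rw [← map_zero (algebraMap (RatFunc ℂ) (Kf f))] at hp
  have h1 := (algebraMap (RatFunc ℂ) (Kf f)).injective hp
  rw [← map_zero (algebraMap ℂ[X] (RatFunc ℂ))] at h1
  exact IsFractionRing.injective ℂ[X] (RatFunc ℂ) h1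

omit hF in
theorem Pf_monic : (Pf f).Monic := Polynomial.monic_X_pow_sub_C _ (by norm_num)

instance Kf_finite : Module.Finite (RatFunc ℂ) (Kf f) := (Pf_monic f).finite_adjoinRoot

theorem Kf_isCurve : IsCurve (Kf f) where
  fg := by
    rw [IntermediateField.fg_top_iff]
    have h1 : Algebra.EssFiniteType ℂ[X] (RatFunc ℂ) :=
      Algebra.EssFiniteType.of_isLocalization _ (nonZeroDivisors ℂ[X])
    have h2 : Algebra.EssFiniteType ℂ (RatFunc ℂ) := Algebra.EssFiniteType.comp ℂ ℂ[X] (RatFunc ℂ)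
    exact Algebra.EssFiniteType.comp ℂ (RatFunc ℂ) (Kf f)
  trdeg := by
    have h1 := trdeg_add_eq ℂ (RatFunc ℂ) (A := Kf f)
    have h2 := trdeg_add_eq ℂ ℂ[X] (A := RatFunc ℂ)
    have h3 : Algebra.IsAlgebraic (RatFunc ℂ) (Kf f) := Algebra.IsAlgebraic.of_finite _ _
    have h4 : Algebra.IsAlgebraic ℂ[X] (RatFunc ℂ) := IsLocalization.isAlgebraic _ (nonZeroDivisors ℂ[X])
    rw [trdeg_eq_zero (R := RatFunc ℂ), add_zero] at h1
    rw [trdeg_eq_zero (R := ℂ[X]), add_zero] at h2
    rw [← h1, ← h2, Polynomial.trdeg_of_isDomain]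

/-- the hyperelliptic involution, over `ℂ(x)` -/
noncomputable def ιf' : Kf f →ₐ[RatFunc ℂ] Kf f :=
  AdjoinRoot.liftAlgHom (Pf f) (Algebra.ofId (RatFunc ℂ) (Kf f)) (-(yf f)) (by
    change Polynomial.eval₂ _ _ (Polynomial.X ^ 2 - Polynomial.C (Ff f)) = 0
    rw [Polynomial.eval₂_sub, Polynomial.eval₂_X_pow, Polynomial.eval₂_C, neg_sq, yf_sq,
      aeval_xf, sub_eq_zero]
    rfl)

theorem ιf'_y : ιf' f (yf f) = -(yf f) :=
  AdjoinRoot.liftAlgHom_root _ _ _ _

theorem ιf'_comp : (ιf' f).comp (ιf' f) = AlgHom.id (RatFunc ℂ) (Kf f) := by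
  apply AdjoinRoot.algHom_ext
  change ιf' f (ιf' f (yf f)) = yf f
  rw [ιf'_y, map_neg, ιf'_y, neg_neg]

/-- the hyperelliptic involution -/
noncomputable def ιf : Kf f ≃ₐ[ℂ] Kf f :=
  (AlgEquiv.ofAlgHom (ιf' f) (ιf' f) (ιf'_comp f) (ιf'_comp f)).restrictScalars ℂ

theorem algebraMap_mem_f (a : RatFunc ℂ) : algebraMap (RatFunc ℂ) (Kf f) a ∈ ℂ⟮xf f⟯ := by
  rw [← RatFunc.num_div_denom a, map_div₀, ← aeval_xf, ← aeval_xf]
  exact div_mem (mem_adj _) (mem_adj _)

theorem spanf (z : Kf f) : ∃ a ∈ ℂ⟮xf f⟯, ∃ b ∈ ℂ⟮xf f⟯, z = a + b * yf f := by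
  obtain ⟨p, rfl⟩ := AdjoinRoot.mk_surjective z
  have h1 := Polynomial.modByMonic_add_div p (Pf f)
  have hdeg : (p %ₘ (Pf f)).natDegree < 2 := by
    have := Polynomial.natDegree_modByMonic_lt p (Pf_monic f) (by
      intro h
      have := congrArg Polynomial.natDegree h
      rw [Pf, Polynomial.natDegree_X_pow_sub_C, Polynomial.natDegree_one] at this
      omega)
    rwa [Pf, Polynomial.natDegree_X_pow_sub_C] at this
  obtain ⟨a, b, hab⟩ := Polynomial.exists_eq_X_add_C_of_natDegree_le_one (Nat.lt_succ_iff.1 hdeg)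
  refine ⟨_, algebraMap_mem_f f b, _, algebraMap_mem_f f a, ?_⟩
  rw [← h1, hab, map_add, map_add, map_mul, map_mul, AdjoinRoot.mk_self, zero_mul, add_zero,
    AdjoinRoot.mk_X, AdjoinRoot.mk_C, AdjoinRoot.mk_C, add_comm]
  rfl

theorem hypf (hs : f.Separable) : Hyp (xf f) (yf f) f (ιf f) where
  curve := Kf_isCurve f
  trans := xf_transcendental f
  eq := yf_sq f
  sep := hs
  span := spanf f
  inv_x := by
    change ιf' f (algebraMap (RatFunc ℂ) (Kf f) RatFunc.X) = _
    rw [AlgHom.commutes]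
    rfl
  inv_y := ιf'_y f

theorem adjoinf : IntermediateField.adjoin ℂ {xf f, yf f} = ⊤ := by
  rw [eq_top_iff]
  intro z _
  obtain ⟨a, ha, b, hb, rfl⟩ := spanf f z
  have h : ℂ⟮xf f⟯ ≤ IntermediateField.adjoin ℂ {xf f, yf f} :=
    IntermediateField.adjoin.mono ℂ _ _ (by simp)
  exact add_mem (h ha) (mul_mem (h hb) (IntermediateField.subset_adjoin ℂ _ (by simp)))

end model

section roots

variable (s : Finset ℂ)

/-- the polynomial with the set `s` of roots -/
noncomputable def fs : ℂ[X] := ∏ a ∈ s, (Polynomial.X - Polynomial.C a)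

/-- the reversed polynomial -/
noncomputable def fs' : ℂ[X] := ∏ a ∈ s, (1 - Polynomial.C a * Polynomial.X)

theorem aeval_fs {K : Type} [Field K] [Algebra ℂ K] (x : K) :
    Polynomial.aeval x (fs s) = ∏ a ∈ s, (x - algebraMap ℂ K a) := by
  rw [fs, map_prod]
  refine Finset.prod_congr rfl fun a _ => ?_
  rw [map_sub, Polynomial.aeval_X, Polynomial.aeval_C]

theorem fs_sep : (fs s).Separable := by
  exact Polynomial.separable_prod_X_sub_C_iff'.2 (fun _ _ _ _ h => h)

theorem fs_deg : (fs s).natDegree = s.card := by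
  rw [fs, Polynomial.natDegree_prod_of_monic _ _ fun a _ => Polynomial.monic_X_sub_C a]
  simp

theorem fs'_sep : (fs' s).Separable := by
  refine Polynomial.separable_prod' ?_ ?_
  · intro a _ c _ hac
    refine ⟨-Polynomial.C (c / (a - c)), Polynomial.C (a / (a - c)), ?_⟩
    have h : a - c ≠ 0 := sub_ne_zero.2 hac
    have h1 : Polynomial.C (a / (a - c)) - Polynomial.C (c / (a - c)) = 1 := by
      rw [← Polynomial.C_sub, ← sub_div, div_self h, Polynomial.C_1]
    have h2 : Polynomial.C (c / (a - c)) * Polynomial.C a = Polynomial.C (a / (a - c)) * Polynomial.C c := by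
      rw [← Polynomial.C_mul, ← Polynomial.C_mul]
      congr 1
      ring
    linear_combination h1 + Polynomial.X * h2
  · intro a _
    rcases eq_or_ne a 0 with rfl | ha
    · rw [Polynomial.C_0, zero_mul, sub_zero]
      exact Polynomial.separable_one
    · rw [Polynomial.separable_def]
      refine ⟨0, -Polynomial.C a⁻¹, ?_⟩
      rw [Polynomial.derivative_sub, Polynomial.derivative_one, Polynomial.derivative_C_mul,
        Polynomial.derivative_X, mul_one, zero_sub, zero_mul, zero_add, neg_mul_neg,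
        ← Polynomial.C_mul, inv_mul_cancel₀ ha, Polynomial.C_1]

theorem revs {b : ℕ} (h : s.card = 2 * b + 16) : Rev (fs s) (fs' s) b where
  deg := by rw [fs_deg, h]
  sep' := fs'_sep s
  rev := by
    intro K _ _ x hx
    rw [fs, fs', map_prod, map_prod, ← h, eq_div_iff (pow_ne_zero _ hx), ← Finset.prod_const,
      ← Finset.prod_mul_distrib]
    refine Finset.prod_congr rfl fun a _ => ?_
    simp only [map_sub, map_one, map_mul, Polynomial.aeval_C, Polynomial.aeval_X]
    field_simp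

end roots

end Pool.Agent.Y803.FD
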